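import Pool.Agent.W649.ZL.Supp
import Pool.Agent.W649.ZL.Fam
import Pool.Agent.W649.ZL.Mat

set_option autoImplicit false
set_option linter.unusedSectionVars false

universe u

namespace Pool.Agent.Results.MP_54e5d7_al.AffineSpacesOfMatrices

open MvPolynomial Pool.Agent

/-- The kernel of right multiplication by the matrix `A` over the complex group ring on row vectors
of length `m` over `l2(G)`: all square-summable `x` with `x A = 0`. -/
def kernel {G : Type u} [Group G] {m l : ℕ} (A : Matrix (Fin m) (Fin l) (G →₀ ℂ)) :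
    Set (lp (fun _ : Fin m × G => ℂ) 2) :=
  {x | ∀ (j : Fin l) (g : G),
    ∑ k : Fin m, ∑ h ∈ (A k j).support, x (k, g * h⁻¹) * A k j h = 0}

open Classical in
/-- The von Neumann dimension of that kernel: the sum over `i` of one minus the square of the
distance from the basis vector at `(i, 1)` to the kernel, that is, the sum of the squared lengths
of the projections of these vectors to the kernel. -/
noncomputable def kerDim {G : Type u} [Group G] {m l : ℕ}
    (A : Matrix (Fin m) (Fin l) (G →₀ ℂ)) : ℝ :=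
  ∑ i : Fin m, (1 - Metric.infDist
    (lp.single (E := fun _ : Fin m × G => ℂ) 2 (i, (1 : G)) (1 : ℂ)) (kernel A) ^ 2)

/-- The kernel is zero. -/
def Inj {G : Type u} [Group G] {m l : ℕ} (A : Matrix (Fin m) (Fin l) (G →₀ ℂ)) : Prop :=
  ∀ x ∈ kernel A, x = 0

/-- A group is locally indicable if every nontrivial finitely generated subgroup has a nontrivial
homomorphism to the group of integers. -/
def LocallyIndicable (H : Type u) [Group H] : Prop :=
  ∀ K : Subgroup H, K.FG → K ≠ ⊥ → ∃ φ : K →* Multiplicative ℤ, ∃ k, φ k ≠ 1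

/-- The linear combination `∑ aᵢ Mᵢ`. -/
noncomputable def comb {G : Type u} {p m l : ℕ} (M : Fin p → Matrix (Fin m) (Fin l) (G →₀ ℂ))
    (a : Fin p → ℂ) : Matrix (Fin m) (Fin l) (G →₀ ℂ) :=
  ∑ i, a i • M i

section
variable {G : Type u} [Group G] {m l : ℕ}

/-- The elementary operators. -/
noncomputable def fam0 (T : Finset G) (m l : ℕ) :
    T × Fin m × Fin l → W649.ZL.EE G (Fin m) →L[ℂ] W649.ZL.EE G (Fin l) :=
  W649.ZL.famR (fun i : T × Fin m × Fin l => (i.1 : G)) (fun i => i.2.1) (fun i => i.2.2)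

/-- The operator of a matrix with entries supported in `T`. -/
noncomputable def op (T : Finset G) (A : Matrix (Fin m) (Fin l) (G →₀ ℂ)) :
    W649.ZL.EE G (Fin m) →L[ℂ] W649.ZL.EE G (Fin l) :=
  W649.ZL.lin (fam0 T m l) (W649.ZL.coefT T A)

theorem op_eqv (T : Finset G) (A : Matrix (Fin m) (Fin l) (G →₀ ℂ)) : W649.ZL.Eqv (op T A) :=
  W649.ZL.lin_eqv _ (W649.ZL.famR_eqv _ _ _) _

theorem op_add (T : Finset G) (A B : Matrix (Fin m) (Fin l) (G →₀ ℂ)) :
    op T (A + B) = op T A + op T B := by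
  unfold op W649.ZL.lin
  rw [← Finset.sum_add_distrib]
  refine Finset.sum_congr rfl fun i _ => ?_
  rw [← add_smul]
  rfl

theorem op_smul (T : Finset G) (c : ℂ) (A : Matrix (Fin m) (Fin l) (G →₀ ℂ)) :
    op T (c • A) = c • op T A := by
  unfold op W649.ZL.lin
  rw [Finset.smul_sum]
  refine Finset.sum_congr rfl fun i _ => ?_
  rw [smul_smul]
  rfl

theorem op_comb (T : Finset G) {p : ℕ} (M : Fin p → Matrix (Fin m) (Fin l) (G →₀ ℂ))
    (a : Fin p → ℂ) : op T (comb M a) = ∑ i, a i • op T (M i) := by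
  let L : Matrix (Fin m) (Fin l) (G →₀ ℂ) →ₗ[ℂ]
      (W649.ZL.EE G (Fin m) →L[ℂ] W649.ZL.EE G (Fin l)) :=
    { toFun := op T
      map_add' := op_add T
      map_smul' := op_smul T }
  have h := map_sum L (fun i => a i • M i) Finset.univ
  change op T (∑ i, a i • M i) = _
  refine h.trans ?_
  refine Finset.sum_congr rfl fun i _ => ?_
  exact L.map_smul _ _

theorem kerDim_eq (T : Finset G) (A : Matrix (Fin m) (Fin l) (G →₀ ℂ))
    (hT : ∀ i j, (A i j).support ⊆ T) :
    kerDim A = W649.ZL.vd (LinearMap.ker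
      (op T A : W649.ZL.EE G (Fin m) →ₗ[ℂ] W649.ZL.EE G (Fin l))) := by
  change _ = W649.ZL.kd (fam0 T m l) (W649.ZL.coefT T A)
  unfold fam0
  rw [← W649.ZL.kerDimM_eq, W649.ZL.matM_coefT T A hT]
  unfold kerDim W649.ZL.kerDimM
  congr!

theorem inj_iff (T : Finset G) (A : Matrix (Fin m) (Fin l) (G →₀ ℂ))
    (hT : ∀ i j, (A i j).support ⊆ T) : Inj A ↔ Function.Injective (op T A) := by
  have h := W649.ZL.flp_image (fun i : T × Fin m × Fin l => (i.1 : G)) (fun i => i.2.1)
    (fun i => i.2.2) (W649.ZL.coefT T A)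
  rw [W649.ZL.matM_coefT T A hT] at h
  have hinj : Function.Injective (W649.ZL.flp : lp (fun _ : Fin m × G => ℂ) 2 →
      W649.ZL.EE G (Fin m)) := W649.ZL.isometry_flp.injective
  have h0 : W649.ZL.flp (0 : lp (fun _ : Fin m × G => ℂ) 2) = 0 := by
    ext x; rfl
  constructor
  · intro hI
    rw [injective_iff_map_eq_zero]
    intro f hf
    have h1 : f ∈ (W649.ZL.flp '' W649.ZL.kernM (K := Fin m) (L := Fin l) A) := by
      rw [h]; exact hf
    obtain ⟨x, hx, rfl⟩ := h1
    rw [hI x hx, h0]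
  · intro hI x hx
    apply hinj
    rw [h0]
    have h1 : W649.ZL.flp x ∈ (W649.ZL.flp '' W649.ZL.kernM (K := Fin m) (L := Fin l) A) :=
      ⟨x, hx, rfl⟩
    rw [h] at h1
    have h2 : op T A (W649.ZL.flp x) = 0 := h1
    exact hI (h2.trans (map_zero _).symm)

/-- The family of operators. -/
noncomputable def famC (T : Finset G) {k p : ℕ} (B : Fin k → Matrix (Fin m) (Fin l) (G →₀ ℂ))
    (A : Fin p → Matrix (Fin m) (Fin l) (G →₀ ℂ)) :
    Fin k ⊕ Fin p → W649.ZL.EE G (Fin m) →L[ℂ] W649.ZL.EE G (Fin l) :=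
  Sum.elim (fun i => op T (B i)) (fun i => op T (A i))

theorem famC_eqv (T : Finset G) {k p : ℕ} (B : Fin k → Matrix (Fin m) (Fin l) (G →₀ ℂ))
    (A : Fin p → Matrix (Fin m) (Fin l) (G →₀ ℂ)) : ∀ i, W649.ZL.Eqv (famC T B A i) := by
  intro i
  rcases i with x | x
  · exact op_eqv _ _
  · exact op_eqv _ _

theorem lin_famC (T : Finset G) {k p : ℕ} (B : Fin k → Matrix (Fin m) (Fin l) (G →₀ ℂ))
    (A : Fin p → Matrix (Fin m) (Fin l) (G →₀ ℂ)) (c : Fin k → ℂ) (a : Fin p → ℂ) :
    W649.ZL.lin (famC T B A) (Sum.elim c a) = op T (comb A a + comb B c) := by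
  rw [op_add, op_comb, op_comb]
  unfold W649.ZL.lin
  rw [Fintype.sum_sum_type, add_comm]
  rfl

theorem supp_comb (T : Finset G) {p : ℕ} (M : Fin p → Matrix (Fin m) (Fin l) (G →₀ ℂ))
    (hM : ∀ i s t, (M i s t).support ⊆ T) (a : Fin p → ℂ) (s : Fin m) (t : Fin l) :
    ((comb M a) s t).support ⊆ T := by
  classical
  intro x hx
  rw [Finsupp.mem_support_iff] at hx
  by_contra hne
  apply hx
  unfold comb
  rw [Matrix.sum_apply, Finsupp.finsetSum_apply]
  apply Finset.sum_eq_zero
  intro i _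
  have : M i s t x = 0 := by
    by_contra h
    exact hne (hM i s t (Finsupp.mem_support_iff.2 h))
  change a i * M i s t x = 0
  rw [this, mul_zero]

/-- The general theorem. -/
theorem general {k p : ℕ} (hkp : k < p) (B : Fin k → Matrix (Fin m) (Fin l) (G →₀ ℂ))
    (A : Fin p → Matrix (Fin m) (Fin l) (G →₀ ℂ))
    (hA : ∀ a : Fin p → ℂ, a ≠ 0 → Inj (comb A a)) :
    (∀ d : ℝ, 0 < d → ∃ Q : MvPolynomial (Fin p) ℂ, Q ≠ 0 ∧
      ∀ (a : Fin p → ℂ) (c : Fin k → ℂ), d ≤ kerDim (comb A a + comb B c) → eval a Q = 0) ∧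
    (∀ P : ℕ → MvPolynomial (Fin p) ℂ, (∀ n, P n ≠ 0) →
      ∃ a : Fin p → ℂ, (∀ n, eval a (P n) ≠ 0) ∧
        ∀ c : Fin k → ℂ, Inj (comb A a + comb B c) ∧ kerDim (comb A a + comb B c) = 0) := by
  classical
  obtain ⟨T, hTA, hTB⟩ : ∃ T : Finset G, (∀ i s t, (A i s t).support ⊆ T) ∧
      (∀ i s t, (B i s t).support ⊆ T) := by
    refine ⟨(Finset.univ.biUnion fun i => Finset.univ.biUnion fun s => Finset.univ.biUnion
      fun t => (A i s t).support) ∪ (Finset.univ.biUnion fun i => Finset.univ.biUnion fun s =>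
      Finset.univ.biUnion fun t => (B i s t).support), ?_, ?_⟩
    · intro i s t x hx
      apply Finset.mem_union_left
      rw [Finset.mem_biUnion]
      refine ⟨i, Finset.mem_univ _, ?_⟩
      rw [Finset.mem_biUnion]
      refine ⟨s, Finset.mem_univ _, ?_⟩
      rw [Finset.mem_biUnion]
      exact ⟨t, Finset.mem_univ _, hx⟩
    · intro i s t x hx
      apply Finset.mem_union_right
      rw [Finset.mem_biUnion]
      refine ⟨i, Finset.mem_univ _, ?_⟩
      rw [Finset.mem_biUnion]
      refine ⟨s, Finset.mem_univ _, ?_⟩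
      rw [Finset.mem_biUnion]
      exact ⟨t, Finset.mem_univ _, hx⟩
  have hsupp : ∀ (a : Fin p → ℂ) (c : Fin k → ℂ) (s : Fin m) (t : Fin l),
      ((comb A a + comb B c) s t).support ⊆ T := by
    intro a c s t
    have h1 := supp_comb T A hTA a s t
    have h2 := supp_comb T B hTB c s t
    exact Finsupp.support_add.trans (Finset.union_subset h1 h2)
  have nice : ∀ a : Fin p → ℂ, a ≠ 0 →
      Function.Injective (W649.ZL.lin (famC T B A) (Sum.elim 0 a)) := by
    intro a ha
    rw [lin_famC]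
    have h : comb B (0 : Fin k → ℂ) = 0 :=
      Finset.sum_eq_zero (fun i _ => zero_smul ℂ (B i))
    rw [h, add_zero]
    exact (inj_iff T _ (supp_comb T A hTA a)).1 (hA a ha)
  have key : ∀ d : ℝ, 0 < d → ∃ Q : MvPolynomial (Fin p) ℂ, Q ≠ 0 ∧
      ∀ (a : Fin p → ℂ) (c : Fin k → ℂ), d ≤ kerDim (comb A a + comb B c) → eval a Q = 0 := by
    intro d hd
    obtain ⟨Q, hQ0, hQ⟩ := W649.ZL.exists_relation (W649.ZL.locus (famC T B A) d)
      (fun q hq t => W649.ZL.locus_cone (famC T B A) d q hq t)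
      (W649.ZL.locus_closed (famC T B A) (famC_eqv T B A) d)
      (W649.ZL.locus_meet (famC T B A) d hd nice) (by simpa using hkp)
    refine ⟨Q, hQ0, fun a c hac => ?_⟩
    have h1 := hQ (Sum.elim c a) (by
      change d ≤ W649.ZL.vd _
      rw [lin_famC, ← kerDim_eq T _ (hsupp a c)]
      exact hac)
    exact h1
  refine ⟨key, fun P hP => ?_⟩
  choose Q hQ0 hQ using fun n : ℕ => key (1 / ((n : ℝ) + 1)) (by positivity)
  obtain ⟨a, ha⟩ := W649.ZL.avoid (fun n => P n * Q n) (fun n => mul_ne_zero (hP n) (hQ0 n))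
  refine ⟨a, fun n h => ha n (by rw [map_mul, h, zero_mul]), fun c => ?_⟩
  have hle : kerDim (comb A a + comb B c) ≤ 0 := by
    by_contra hcon
    push Not at hcon
    obtain ⟨n, hn⟩ := exists_nat_one_div_lt hcon
    exact ha n (by rw [map_mul, hQ n a c hn.le, mul_zero])
  have hle' := hle
  rw [kerDim_eq T _ (hsupp a c)] at hle'
  refine ⟨(inj_iff T _ (hsupp a c)).2 (W649.ZL.injective_of_vd_eq_zero _ (op_eqv _ _) hle'), ?_⟩
  apply le_antisymm hle
  rw [kerDim_eq T _ (hsupp a c)]
  exact W649.ZL.vd_nonneg _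

/-- The scalar matrix. -/
noncomputable def scalar (n : ℕ) (α : G →₀ ℂ) : Matrix (Fin n) (Fin n) (G →₀ ℂ) :=
  fun i j => if i = j then α else 0

open Classical in
theorem scalar_inj (n : ℕ) (α : G →₀ ℂ) (hα : α ≠ 0) (t : G) (H : Subgroup G)
    (hH : LocallyIndicable H) (hs : ∀ x ∈ α.support, x * t⁻¹ ∈ H) : Inj (scalar n α) := by
  intro x hx
  ext ⟨i, g⟩
  have hinv : Function.Injective (fun y : G => y⁻¹) := inv_injective
  have h1 : Function.Injective (W649.ZL.cop (α.mapDomain (fun y : G => y⁻¹))) := by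
    apply W649.ZL.LI_coset_injective t⁻¹ H hH
    · intro y hy
      rw [Finsupp.mapDomain_support_of_injective hinv, Finset.mem_image] at hy
      obtain ⟨z, hz, rfl⟩ := hy
      have h2 := H.inv_mem (hs z hz)
      rw [mul_inv_rev, inv_inv] at h2
      rw [inv_inv]
      exact h2
    · intro h0
      apply hα
      apply Finsupp.mapDomain_injective hinv
      rw [h0, Finsupp.mapDomain_zero]
  have h2 := (W649.ZL.regular_iff (α.mapDomain (fun y : G => y⁻¹))).2 h1
  by_contra hne
  have hmem : Memℓp (fun u : G => x (i, u⁻¹)) 2 := by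
    have h3 : Memℓp (fun y : Fin n × G => x y) 2 := x.2
    rw [W649.ZL.memlp_two_iff] at h3 ⊢
    have h4 := h3.comp_injective (i := fun u : G => ((i, u⁻¹) : Fin n × G)) (by
      intro a b hab
      exact inv_injective (Prod.mk.inj hab).2)
    exact h4
  obtain ⟨u, hu⟩ := h2 (fun u : G => x (i, u⁻¹)) hmem (by
    intro h0
    apply hne
    have h3 := congrFun h0 g⁻¹
    simpa using h3)
  apply hu
  rw [Finsupp.mapDomain_support_of_injective hinv, Finset.sum_image (by
    intro a _ b _ hab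
    exact hinv hab)]
  have h5 := hx i u⁻¹
  rw [Finset.sum_eq_single i] at h5
  · have h6 : scalar n α i i = α := by
      unfold scalar
      rw [if_pos rfl]
    rw [h6] at h5
    rw [← h5]
    refine Finset.sum_congr rfl fun y _ => ?_
    rw [Finsupp.mapDomain_apply hinv, inv_inv, mul_inv_rev, mul_comm]
  · intro b _ hb
    have h6 : scalar n α b i = 0 := by
      unfold scalar
      rw [if_neg hb]
    rw [h6]
    simp
  · intro h; exact absurd (Finset.mem_univ _) h

end

/-- **Affine spaces of matrices with kernel dimension zero.** Let `G` be any group.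

1. Let `A₁, …, A_p` be `m × l` matrices over the complex group ring such that right multiplication
   by `∑ aᵢ Aᵢ` is injective on `ℓ²(G)^m` for all `a ≠ 0`, and let `B₁, …, B_k` be arbitrary
   `m × l` matrices, `k < p`. For every `d > 0` there is a nonzero polynomial `Q` in `p` variables
   such that `Q(a) = 0` whenever for some `c` in `ℂ^k` the kernel of `∑ aᵢ Aᵢ + ∑ cⱼ Bⱼ` has von
   Neumann dimension at least `d`; and outside any given countable family of proper hypersurfaces of
   `ℂ^p` there is an `a` such that all the matrices `∑ aᵢ Aᵢ + ∑ cⱼ Bⱼ`, `c` in `ℂ^k`, have zero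
   kernel.
2. Let `F` be a finite subset of a right coset of a locally indicable subgroup of `G` (for instance
   `F = {1, x, …, x^k}`, `x` of infinite order) and let `W` be a linear space of `n × n` matrices
   over the complex group ring spanned by fewer than `|F|` matrices. There is an `α` with support
   `F` such that all the matrices `α I + B`, `B` in `W`, have zero kernel. -/
theorem result {G : Type u} [Group G] :
    (∀ (m l k p : ℕ), k < p → ∀ (B : Fin k → Matrix (Fin m) (Fin l) (G →₀ ℂ))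
      (A : Fin p → Matrix (Fin m) (Fin l) (G →₀ ℂ)),
      (∀ a : Fin p → ℂ, a ≠ 0 → Inj (comb A a)) →
      (∀ d : ℝ, 0 < d → ∃ Q : MvPolynomial (Fin p) ℂ, Q ≠ 0 ∧
        ∀ (a : Fin p → ℂ) (c : Fin k → ℂ), d ≤ kerDim (comb A a + comb B c) → eval a Q = 0) ∧
      (∀ P : ℕ → MvPolynomial (Fin p) ℂ, (∀ n, P n ≠ 0) →
        ∃ a : Fin p → ℂ, (∀ n, eval a (P n) ≠ 0) ∧
          ∀ c : Fin k → ℂ, Inj (comb A a + comb B c) ∧ kerDim (comb A a + comb B c) = 0)) ∧
    (∀ (H : Subgroup G), LocallyIndicable H → ∀ (t : G) (F : Finset G), (∀ x ∈ F, x * t⁻¹ ∈ H) →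
      ∀ (n : ℕ) (W : Submodule ℂ (Matrix (Fin n) (Fin n) (G →₀ ℂ)))
        (S : Finset (Matrix (Fin n) (Fin n) (G →₀ ℂ))),
        W = Submodule.span ℂ (S : Set (Matrix (Fin n) (Fin n) (G →₀ ℂ))) → S.card < F.card →
        ∃ α : G →₀ ℂ, α.support = F ∧
          ∀ B ∈ W, Inj (scalar n α + B) ∧ kerDim (scalar n α + B) = 0) := by
  classical
  refine ⟨fun m l k p hkp B A hA => general hkp B A hA, ?_⟩
  rintro H hH t F hF n W S rfl hcard
  set e := F.equivFin with he
  set eS := S.equivFin with heS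
  let γ : Fin F.card → (G →₀ ℂ) := fun i => Finsupp.single ((e.symm i : F) : G) 1
  let A : Fin F.card → Matrix (Fin n) (Fin n) (G →₀ ℂ) := fun i => scalar n (γ i)
  let B : Fin S.card → Matrix (Fin n) (Fin n) (G →₀ ℂ) := fun i => ((eS.symm i : S) : _)
  have hcomb : ∀ a : Fin F.card → ℂ,
      comb A a = scalar n (W649.ZL.ofF F (fun x : F => a (e x))) := by
    intro a
    have h1 : ∑ i, a i • γ i = W649.ZL.ofF F (fun x : F => a (e x)) := by
      unfold W649.ZL.ofF
      rw [← e.symm.sum_comp]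
      refine Finset.sum_congr rfl fun i _ => ?_
      change a i • Finsupp.single ((e.symm i : F) : G) 1 =
        Finsupp.single ((e.symm i : F) : G) (a (e (e.symm i)))
      rw [Finsupp.smul_single, smul_eq_mul, mul_one, Equiv.apply_symm_apply]
    rw [← h1]
    funext i j
    unfold comb
    rw [Matrix.sum_apply]
    unfold scalar
    by_cases hij : i = j
    · rw [if_pos hij]
      refine Finset.sum_congr rfl fun s _ => ?_
      change a s • (if i = j then γ s else 0) = _
      rw [if_pos hij]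
    · rw [if_neg hij]
      apply Finset.sum_eq_zero
      intro s _
      change a s • (if i = j then γ s else 0) = _
      rw [if_neg hij, smul_zero]
  have hA : ∀ a : Fin F.card → ℂ, a ≠ 0 → Inj (comb A a) := by
    intro a ha
    rw [hcomb]
    apply scalar_inj n _ _ t H hH
    · intro x hx
      exact hF x (W649.ZL.ofF_support F _ hx)
    · apply W649.ZL.ofF_ne_zero
      intro h
      apply ha
      funext i
      have h1 := congrFun h (e.symm i)
      simpa using h1
  obtain ⟨a, ha, hreg⟩ := (general hcard B A hA).2 (fun _ => ∏ i, X i) (fun _ =>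
    Finset.prod_ne_zero_iff.2 fun i _ => X_ne_zero i)
  have ha' : ∀ i, a i ≠ 0 := by
    intro i h
    apply ha 0
    rw [map_prod]
    apply Finset.prod_eq_zero (Finset.mem_univ i)
    rw [eval_X, h]
  refine ⟨W649.ZL.ofF F (fun x : F => a (e x)), ?_, ?_⟩
  · apply Finset.Subset.antisymm (W649.ZL.ofF_support F _)
    intro x hx
    rw [Finsupp.mem_support_iff]
    have h1 := W649.ZL.ofF_apply F (fun x : F => a (e x)) ⟨x, hx⟩
    change W649.ZL.ofF F (fun x : F => a (e x)) x = _ at h1
    rw [h1]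
    exact ha' _
  · intro w hw
    obtain ⟨c, hc⟩ : ∃ c : Fin S.card → ℂ, comb B c = w := by
      rw [Submodule.mem_span_finset] at hw
      obtain ⟨f, _, hf⟩ := hw
      refine ⟨fun i => f (B i), ?_⟩
      rw [← hf]
      unfold comb
      rw [← Finset.sum_coe_sort S, ← eS.symm.sum_comp]
    rw [← hc, ← hcomb]
    exact hreg c

end Pool.Agent.Results.MP_54e5d7_al.AffineSpacesOfMatrices
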