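import Pool.Agent.V1132.GE.Closed

set_option autoImplicit false
set_option linter.unusedSectionVars false

universe u

namespace Pool.Agent.Results.MP_54e5d7_al.CompactValues

open MvPolynomial Pool.Agent

/-- The kernel of right multiplication by the matrix `A` over the complex group ring on row vectors
of length `m` over `l2(G)`: all square-summable `x` with `x A = 0`. -/
def kernel {G : Type u} [Group G] {m l : ℕ} (A : Matrix (Fin m) (Fin l) (G →₀ ℂ)) :
    Set (lp (fun _ : Fin m × G => ℂ) 2) :=
  {x | ∀ (j : Fin l) (g : G),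
    ∑ k : Fin m, ∑ h ∈ (A k j).support, x (k, g * h⁻¹) * A k j h = 0}

open Classical in
/-- The von Neumann dimension of that kernel: the sum over `i` of one minus the square of the
distance from the basis vector at `(i, 1)` to the kernel, that is, the sum of the squared lengths
of the projections of these vectors to the kernel. -/
noncomputable def kerDim {G : Type u} [Group G] {m l : ℕ}
    (A : Matrix (Fin m) (Fin l) (G →₀ ℂ)) : ℝ :=
  ∑ i : Fin m, (1 - Metric.infDist
    (lp.single (E := fun _ : Fin m × G => ℂ) 2 (i, (1 : G)) (1 : ℂ)) (kernel A) ^ 2)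

/-- All coefficients of `B` lie in `K`. -/
def Over {G : Type u} {m l : ℕ} (K : Subfield ℂ) (B : Matrix (Fin m) (Fin l) (G →₀ ℂ)) : Prop :=
  ∀ i j g, B i j g ∈ K

/-- The set of the kernel dimensions of the `m × l` matrices over `F[G]` all of whose entries are
supported in the finite set `T`. -/
def values {G : Type u} [Group G] (F : Subfield ℂ) (T : Finset G) (m l : ℕ) : Set ℝ :=
  {r | ∃ A : Matrix (Fin m) (Fin l) (G →₀ ℂ), Over F A ∧ (∀ i j, (A i j).support ⊆ T) ∧
    kerDim A = r}

section
variable {G : Type u} [Group G] {m l : ℕ}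

theorem kerDim_eq (T : Finset G) (A : Matrix (Fin m) (Fin l) (G →₀ ℂ))
    (hT : ∀ i j, (A i j).support ⊆ T) :
    kerDim A = V1132.GE.kdim T m l (W649.ZL.coefT T A) := by
  change _ = W649.ZL.kd (W649.ZL.famR (fun i : T × Fin m × Fin l => (i.1 : G))
    (fun i => i.2.1) (fun i => i.2.2)) (W649.ZL.coefT T A)
  rw [← W649.ZL.kerDimM_eq, W649.ZL.matM_coefT T A hT]
  unfold kerDim W649.ZL.kerDimM
  congr!

open Classical in
/-- the matrix with given coefficients -/
noncomputable def mat (T : Finset G) (b : T × Fin m × Fin l → ℂ) :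
    Matrix (Fin m) (Fin l) (G →₀ ℂ) :=
  fun i j => ∑ t : T, Finsupp.single (t : G) (b (t, i, j))

theorem mat_apply (T : Finset G) (b : T × Fin m × Fin l → ℂ) (i : Fin m) (j : Fin l) (t : T) :
    mat T b i j (t : G) = b (t, i, j) := by
  classical
  unfold mat
  rw [Finsupp.finsetSum_apply, Finset.sum_eq_single t]
  · simp
  · intro s _ hs
    rw [Finsupp.single_apply, if_neg]
    intro h
    exact hs (Subtype.ext h)
  · intro h
    exact absurd (Finset.mem_univ _) h

theorem mat_apply_of_notMem (T : Finset G) (b : T × Fin m × Fin l → ℂ) (i : Fin m) (j : Fin l)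
    (g : G) (hg : g ∉ T) : mat T b i j g = 0 := by
  classical
  unfold mat
  rw [Finsupp.finsetSum_apply]
  apply Finset.sum_eq_zero
  intro s _
  rw [Finsupp.single_apply, if_neg]
  intro h
  apply hg
  rw [← h]
  exact s.2

theorem mat_support (T : Finset G) (b : T × Fin m × Fin l → ℂ) (i : Fin m) (j : Fin l) :
    (mat T b i j).support ⊆ T := by
  intro g hg
  by_contra h
  exact (Finsupp.mem_support_iff.1 hg) (mat_apply_of_notMem T b i j g h)

theorem coefT_mat (T : Finset G) (b : T × Fin m × Fin l → ℂ) :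
    W649.ZL.coefT T (mat T b) = b := by
  funext t
  exact mat_apply T b t.2.1 t.2.2 t.1

theorem values_eq (F : Subfield ℂ) (T : Finset G) (m l : ℕ) :
    values F T m l =
      Set.range (fun v : T × Fin m × Fin l → F => V1132.GE.kdim T m l (V1132.GE.up v)) := by
  ext r
  constructor
  · rintro ⟨A, hA, hT, rfl⟩
    refine ⟨fun t => ⟨W649.ZL.coefT T A t, hA _ _ _⟩, ?_⟩
    rw [kerDim_eq T A hT]
    rfl
  · rintro ⟨v, rfl⟩
    refine ⟨mat T (V1132.GE.up v), ?_, mat_support T _, ?_⟩
    · intro i j g
      by_cases hg : g ∈ T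
      · have h1 := mat_apply T (V1132.GE.up v) i j ⟨g, hg⟩
        rw [h1]
        exact (v _).2
      · rw [mat_apply_of_notMem T _ i j g hg]
        exact F.zero_mem
    · rw [kerDim_eq T _ (mat_support T _), coefT_mat]

theorem kdim_closed (T : Finset G) (m l : ℕ) (d : ℝ) :
    zeroLocus ℂ (vanishingIdeal ℂ {a | d ≤ V1132.GE.kdim T m l a}) =
      {a | d ≤ V1132.GE.kdim T m l a} :=
  W649.ZL.locus_closed (W649.ZL.famR (fun i : T × Fin m × Fin l => (i.1 : G))
    (fun i => i.2.1) (fun i => i.2.2)) (W649.ZL.famR_eqv _ _ _) d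

theorem values_closed (F : Subfield ℂ) [IsAlgClosed F] [Uncountable F] (T : Finset G) (m l : ℕ) :
    IsClosed (values F T m l) := by
  rw [values_eq]
  exact V1132.GE.closed_up (F := F) (V1132.GE.kdim T m l) (kdim_closed T m l)

theorem values_bdd (F : Subfield ℂ) (T : Finset G) (m l : ℕ) :
    values F T m l ⊆ Set.Icc (0 : ℝ) m := by
  rw [values_eq]
  rintro _ ⟨v, rfl⟩
  refine ⟨W649.ZL.vd_nonneg _, ?_⟩
  have h := W649.ZL.vd_le_card (LinearMap.ker (W649.ZL.lin (W649.ZL.famR
    (fun i : T × Fin m × Fin l => (i.1 : G)) (fun i => i.2.1) (fun i => i.2.2))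
    (V1132.GE.up v) : W649.ZL.EE G (Fin m) →ₗ[ℂ] W649.ZL.EE G (Fin l)))
  rw [Fintype.card_fin] at h
  exact h

theorem values_max (F : Subfield ℂ) (T : Finset G) (m l : ℕ) (W : Set ℝ)
    (hW : W ⊆ values F T m l) (hne : W.Nonempty) : ∃ r ∈ W, ∀ s ∈ W, s ≤ r := by
  rw [values_eq] at hW
  obtain ⟨p, hp, hmax⟩ := W649.ZL.acc
    (W649.ZL.famR (fun i : T × Fin m × Fin l => (i.1 : G)) (fun i => i.2.1) (fun i => i.2.2))
    (W649.ZL.famR_eqv _ _ _) {p | V1132.GE.kdim T m l p ∈ W} (by
      obtain ⟨r, hr⟩ := hne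
      obtain ⟨v, hv⟩ := hW hr
      refine ⟨V1132.GE.up v, ?_⟩
      change V1132.GE.kdim T m l (V1132.GE.up v) ∈ W
      rw [show V1132.GE.kdim T m l (V1132.GE.up v) = r from hv]
      exact hr)
  refine ⟨V1132.GE.kdim T m l p, hp, fun s hs => ?_⟩
  obtain ⟨v, hv⟩ := hW hs
  have h1 : V1132.GE.kdim T m l (V1132.GE.up v) = s := hv
  rw [← h1]
  apply hmax
  change V1132.GE.kdim T m l (V1132.GE.up v) ∈ W
  rw [h1]
  exact hs

theorem values_countable (F : Subfield ℂ) (T : Finset G) (m l : ℕ) :
    (values F T m l).Countable := by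
  refine (W649.ZL.kd_countable (W649.ZL.famR (fun i : T × Fin m × Fin l => (i.1 : G))
    (fun i => i.2.1) (fun i => i.2.2)) (W649.ZL.famR_eqv _ _ _)).mono ?_
  rw [values_eq]
  rintro _ ⟨v, rfl⟩
  exact ⟨V1132.GE.up v, rfl⟩

theorem values_mono {F K : Subfield ℂ} (h : ∀ x ∈ K, x ∈ F) (T : Finset G) (m l : ℕ) :
    values K T m l ⊆ values F T m l := by
  rintro r ⟨A, hA, hT, hr⟩
  exact ⟨A, fun i j g => h _ (hA i j g), hT, hr⟩

end

/-- **The set of kernel dimensions is compact.** Let `G` be any group. For a subfield `F` of `ℂ`, a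
finite subset `T` of `G` and numbers `m`, `l` let `V(F, T, m, l)` be the set of the von Neumann
dimensions of the kernels of the `m × l` matrices over `F[G]` all of whose entries are supported in
`T`.

1. For every `F` the set `V(F, T, m, l)` is countable and every nonempty subset of it has a largest
   element; so there is no strictly increasing sequence of values.
2. If `F` is algebraically closed and uncountable, for instance `F = ℂ`, then `V(F, T, m, l)` is
   compact; so if there are matrices with entries supported in `T` and kernel dimensions converging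
   to `r`, then there is one with kernel dimension `r`.
3. If `G` is countable and `K` is a countable algebraically closed subfield of `ℂ`, for instance the
   field of algebraic numbers, then there is a subfield `F` of `ℂ` which contains `K` and is
   isomorphic to `ℂ` such that `V(F, T, m, l)` is the closure of `V(K, T, m, l)`, for all `T`, `m`,
   `l`. -/
theorem result {G : Type u} [Group G] :
    (∀ (F : Subfield ℂ) (T : Finset G) (m l : ℕ), (values F T m l).Countable ∧
      ∀ W ⊆ values F T m l, W.Nonempty → ∃ r ∈ W, ∀ s ∈ W, s ≤ r) ∧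
    (∀ (F : Subfield ℂ) [IsAlgClosed F] [Uncountable F] (T : Finset G) (m l : ℕ),
      IsCompact (values F T m l)) ∧
    (∀ [Countable G] (K : Subfield ℂ) [IsAlgClosed K] [Countable K],
      ∃ F : Subfield ℂ, (∀ x ∈ K, x ∈ F) ∧ Nonempty (ℂ ≃+* F) ∧
        ∀ (T : Finset G) (m l : ℕ), values F T m l = closure (values K T m l)) := by
  refine ⟨fun F T m l => ⟨values_countable F T m l, values_max F T m l⟩, ?_, ?_⟩
  · intro F _ _ T m l
    exact Metric.isCompact_of_isClosed_isBounded (values_closed F T m l)
      (Metric.isBounded_Icc 0 (m : ℝ) |>.subset (values_bdd F T m l))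
  · intro _ K _ _
    obtain ⟨σ, hσ, h⟩ := V1132.GE.exists_embedding G K
    have e : ℂ ≃+* σ.fieldRange := σ.rangeRestrictFieldEquiv
    have hac : IsAlgClosed σ.fieldRange := IsAlgClosed.of_ringEquiv ℂ σ.fieldRange e
    have hun0 : Uncountable ℂ := by
      rw [← not_countable_iff]
      intro h
      exact not_countable_complex (Set.countable_univ_iff.2 h)
    have hun : Uncountable σ.fieldRange := e.injective.uncountable
    have hK : ∀ x ∈ K, x ∈ σ.fieldRange := fun x hx => ⟨x, hσ ⟨x, hx⟩⟩
    refine ⟨σ.fieldRange, hK, ⟨e⟩, fun T m l => ?_⟩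
    apply Set.Subset.antisymm
    · rintro r ⟨A, hA, hT, rfl⟩
      rw [Metric.mem_closure_iff]
      intro ε hε
      choose a ha using fun i j g => hA i j g
      have h1 : (fun t : T × Fin m × Fin l => σ (a t.2.1 t.2.2 t.1)) = W649.ZL.coefT T A := by
        funext t
        exact ha _ _ _
      obtain ⟨b, -, hb1, hb2⟩ := h m l T (fun t => a t.2.1 t.2.2 t.1) ε hε
      rw [h1, ← kerDim_eq T A hT] at hb1 hb2
      refine ⟨V1132.GE.kdim T m l (V1132.GE.up b), ?_, ?_⟩
      · rw [values_eq]
        exact ⟨b, rfl⟩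
      · rw [Real.dist_eq, abs_lt]
        constructor <;> linarith
    · exact closure_minimal (values_mono hK T m l) (values_closed σ.fieldRange T m l)

end Pool.Agent.Results.MP_54e5d7_al.CompactValues
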