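import Pool.Agent.V1132.GE.Main

set_option autoImplicit false
set_option linter.unusedSectionVars false

universe u

namespace Pool.Agent.Results.MP_54e5d7_al.GenericCoefficients

open MvPolynomial Pool.Agent

/-- The kernel of right multiplication by the matrix `A` over the complex group ring on row vectors
of length `m` over `l2(G)`: all square-summable `x` with `x A = 0`. -/
def kernel {G : Type u} [Group G] {m l : ℕ} (A : Matrix (Fin m) (Fin l) (G →₀ ℂ)) :
    Set (lp (fun _ : Fin m × G => ℂ) 2) :=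
  {x | ∀ (j : Fin l) (g : G),
    ∑ k : Fin m, ∑ h ∈ (A k j).support, x (k, g * h⁻¹) * A k j h = 0}

open Classical in
/-- The von Neumann dimension of that kernel: the sum over `i` of one minus the square of the
distance from the basis vector at `(i, 1)` to the kernel, that is, the sum of the squared lengths
of the projections of these vectors to the kernel. -/
noncomputable def kerDim {G : Type u} [Group G] {m l : ℕ}
    (A : Matrix (Fin m) (Fin l) (G →₀ ℂ)) : ℝ :=
  ∑ i : Fin m, (1 - Metric.infDist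
    (lp.single (E := fun _ : Fin m × G => ℂ) 2 (i, (1 : G)) (1 : ℂ)) (kernel A) ^ 2)

/-- The field homomorphism `σ` applied to the coefficients of `A`. -/
noncomputable def twist {G : Type u} {m l : ℕ} (σ : ℂ →+* ℂ)
    (A : Matrix (Fin m) (Fin l) (G →₀ ℂ)) : Matrix (Fin m) (Fin l) (G →₀ ℂ) :=
  fun i j => (A i j).mapRange σ (map_zero σ)

/-- All coefficients of `B` lie in `K`. -/
def Over {G : Type u} {m l : ℕ} (K : Subfield ℂ) (B : Matrix (Fin m) (Fin l) (G →₀ ℂ)) : Prop :=
  ∀ i j g, B i j g ∈ K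

/-- The kernel dimension of `A` is a limit from above of kernel dimensions of matrices over `K[G]`
which have the same size and whose entries have supports contained in the supports of the entries
of `A`. -/
def LimitOf {G : Type u} [Group G] {m l : ℕ} (K : Subfield ℂ)
    (A : Matrix (Fin m) (Fin l) (G →₀ ℂ)) : Prop :=
  ∀ ε : ℝ, 0 < ε → ∃ B : Matrix (Fin m) (Fin l) (G →₀ ℂ), Over K B ∧
    (∀ i j, (B i j).support ⊆ (A i j).support) ∧ kerDim A ≤ kerDim B ∧ kerDim B < kerDim A + ε

section
variable {G : Type u} [Group G] {m l : ℕ}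

theorem kerDim_eq (T : Finset G) (A : Matrix (Fin m) (Fin l) (G →₀ ℂ))
    (hT : ∀ i j, (A i j).support ⊆ T) :
    kerDim A = V1132.GE.kdim T m l (W649.ZL.coefT T A) := by
  change _ = W649.ZL.kd (W649.ZL.famR (fun i : T × Fin m × Fin l => (i.1 : G))
    (fun i => i.2.1) (fun i => i.2.2)) (W649.ZL.coefT T A)
  rw [← W649.ZL.kerDimM_eq, W649.ZL.matM_coefT T A hT]
  unfold kerDim W649.ZL.kerDimM
  congr!

open Classical in
/-- the matrix with given coefficients -/
noncomputable def mat (T : Finset G) (b : T × Fin m × Fin l → ℂ) :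
    Matrix (Fin m) (Fin l) (G →₀ ℂ) :=
  fun i j => ∑ t : T, Finsupp.single (t : G) (b (t, i, j))

theorem mat_apply (T : Finset G) (b : T × Fin m × Fin l → ℂ) (i : Fin m) (j : Fin l) (t : T) :
    mat T b i j (t : G) = b (t, i, j) := by
  classical
  unfold mat
  rw [Finsupp.finsetSum_apply, Finset.sum_eq_single t]
  · simp
  · intro s _ hs
    rw [Finsupp.single_apply, if_neg]
    intro h
    exact hs (Subtype.ext h)
  · intro h
    exact absurd (Finset.mem_univ _) h

theorem mat_apply_of_notMem (T : Finset G) (b : T × Fin m × Fin l → ℂ) (i : Fin m) (j : Fin l)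
    (g : G) (hg : g ∉ T) : mat T b i j g = 0 := by
  classical
  unfold mat
  rw [Finsupp.finsetSum_apply]
  apply Finset.sum_eq_zero
  intro s _
  rw [Finsupp.single_apply, if_neg]
  intro h
  apply hg
  rw [← h]
  exact s.2

theorem mat_support (T : Finset G) (b : T × Fin m × Fin l → ℂ) (i : Fin m) (j : Fin l) :
    (mat T b i j).support ⊆ T := by
  intro g hg
  by_contra h
  exact (Finsupp.mem_support_iff.1 hg) (mat_apply_of_notMem T b i j g h)

theorem coefT_mat (T : Finset G) (b : T × Fin m × Fin l → ℂ) :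
    W649.ZL.coefT T (mat T b) = b := by
  funext t
  exact mat_apply T b t.2.1 t.2.2 t.1

/-- a common support -/
theorem exists_T (A : Matrix (Fin m) (Fin l) (G →₀ ℂ)) :
    ∃ T : Finset G, ∀ i j, (A i j).support ⊆ T := by
  classical
  refine ⟨Finset.univ.biUnion fun i : Fin m => Finset.univ.biUnion fun j : Fin l =>
    (A i j).support, fun i j x hx => ?_⟩
  simp only [Finset.mem_biUnion, Finset.mem_univ, true_and]
  exact ⟨i, j, hx⟩

theorem limitOf (K : Subfield ℂ) (A : Matrix (Fin m) (Fin l) (G →₀ ℂ)) (T : Finset G)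
    (hT : ∀ i j, (A i j).support ⊆ T)
    (h : ∀ ε : ℝ, 0 < ε → ∃ b : T × Fin m × Fin l → K, (∀ t, W649.ZL.coefT T A t = 0 → b t = 0) ∧
        V1132.GE.kdim T m l (W649.ZL.coefT T A) ≤ V1132.GE.kdim T m l (V1132.GE.up b) ∧
        V1132.GE.kdim T m l (V1132.GE.up b) < V1132.GE.kdim T m l (W649.ZL.coefT T A) + ε) :
    LimitOf K A := by
  intro ε hε
  obtain ⟨b, hb0, hb1, hb2⟩ := h ε hε
  refine ⟨mat T (V1132.GE.up b), ?_, ?_, ?_, ?_⟩
  · intro i j g
    by_cases hg : g ∈ T
    · have h1 := mat_apply T (V1132.GE.up b) i j ⟨g, hg⟩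
      rw [h1]
      exact (b _).2
    · rw [mat_apply_of_notMem T _ i j g hg]
      exact K.zero_mem
  · intro i j g hg
    have hgT : g ∈ T := mat_support T _ i j hg
    rw [Finsupp.mem_support_iff] at hg ⊢
    intro h0
    apply hg
    have h1 := mat_apply T (V1132.GE.up b) i j ⟨g, hgT⟩
    rw [h1]
    have h2 := hb0 (⟨g, hgT⟩, i, j) h0
    unfold V1132.GE.up
    rw [h2, map_zero]
  · rw [kerDim_eq T A hT, kerDim_eq T _ (mat_support T _), coefT_mat]
    exact hb1
  · rw [kerDim_eq T A hT, kerDim_eq T _ (mat_support T _), coefT_mat]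
    exact hb2

theorem integral_of_limitOf (K : Subfield ℂ) (d : ℕ) (A : Matrix (Fin m) (Fin l) (G →₀ ℂ))
    (hK : ∀ B : Matrix (Fin m) (Fin l) (G →₀ ℂ), Over K B → ∃ z : ℤ, (d : ℝ) * kerDim B = z)
    (hA : LimitOf K A) : ∃ z : ℤ, (d : ℝ) * kerDim A = z := by
  rcases Nat.eq_zero_or_pos d with rfl | hd
  · exact ⟨0, by simp⟩
  have hd' : (0 : ℝ) < d := Nat.cast_pos.2 hd
  -- the fractional part
  by_contra hcon
  push Not at hcon
  have h1 : (d : ℝ) * kerDim A < ⌈(d : ℝ) * kerDim A⌉ :=
    lt_of_le_of_ne (Int.le_ceil _) (hcon _)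
  set ε : ℝ := (⌈(d : ℝ) * kerDim A⌉ - (d : ℝ) * kerDim A) / d with hε
  have hε0 : 0 < ε := div_pos (sub_pos.2 h1) hd'
  obtain ⟨B, hB, -, h2, h3⟩ := hA ε hε0
  obtain ⟨z, hz⟩ := hK B hB
  have h4 : (d : ℝ) * kerDim A ≤ z := by
    rw [← hz]
    exact mul_le_mul_of_nonneg_left h2 hd'.le
  have h5 : (z : ℝ) < ⌈(d : ℝ) * kerDim A⌉ := by
    rw [← hz]
    calc (d : ℝ) * kerDim B < d * (kerDim A + ε) := mul_lt_mul_of_pos_left h3 hd'
      _ = ⌈(d : ℝ) * kerDim A⌉ := by
        rw [hε]
        field_simp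
        ring
  have h6 : ⌈(d : ℝ) * kerDim A⌉ ≤ z := Int.ceil_le.2 h4
  have h7 : z < ⌈(d : ℝ) * kerDim A⌉ := by exact_mod_cast h5
  omega

end

/-- **Generic coefficients.** Let `G` be a countable group and `K` a countable algebraically closed
subfield of `ℂ` (for instance the field of algebraic numbers).

1. For every `p` there are countably many nonzero polynomials in `p` variables such that for every
   `z` in `ℂ^p` which is a zero of none of them, all kernel dimensions of matrices over `G` whose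
   coefficients are algebraic over `K(z₁, …, z_p)` are limits from above of kernel dimensions of
   matrices over `K[G]` of the same size and with smaller supports. For `p = 1` this says: for all
   but countably many complex numbers `z`.
2. There is a field homomorphism `σ : ℂ → ℂ` which is the identity on `K` such that the same is true
   for all matrices with coefficients in `σ(ℂ)`, that is, for all matrices `σ(A)`, `A` any complex
   matrix.
3. If `d` times the kernel dimension is an integer for all matrices over `K[G]`, then it is an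
   integer for all the matrices of 1 and 2. So if `G` satisfies the Atiyah conjecture with
   coefficients in `K`, it satisfies it with coefficients in the field `F = σ(ℂ)`, which contains
   `K` and is isomorphic to `ℂ`, and, for all `z` as in 1, with coefficients in the algebraic closure
   of `K(z₁, …, z_p)`. -/
theorem result {G : Type u} [Group G] [Countable G] (K : Subfield ℂ) [IsAlgClosed K]
    [Countable K] :
    (∀ p : ℕ, ∃ Q : ℕ → MvPolynomial (Fin p) ℂ, (∀ n, Q n ≠ 0) ∧
      ∀ z : Fin p → ℂ, (∀ n, eval z (Q n) ≠ 0) →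
        ∀ (m l : ℕ) (A : Matrix (Fin m) (Fin l) (G →₀ ℂ)),
          (∀ i j g, IsAlgebraic (Subfield.closure (K ∪ Set.range z)) (A i j g)) → LimitOf K A) ∧
    (∃ σ : ℂ →+* ℂ, (∀ x ∈ K, σ x = x) ∧
      ∀ (m l : ℕ) (A : Matrix (Fin m) (Fin l) (G →₀ ℂ)), LimitOf K (twist σ A)) ∧
    (∀ d : ℕ, (∀ (m l : ℕ) (B : Matrix (Fin m) (Fin l) (G →₀ ℂ)), Over K B →
        ∃ z : ℤ, (d : ℝ) * kerDim B = z) →
      ∀ (m l : ℕ) (A : Matrix (Fin m) (Fin l) (G →₀ ℂ)), LimitOf K A →
        ∃ z : ℤ, (d : ℝ) * kerDim A = z) := by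
  refine ⟨?_, ?_, ?_⟩
  · intro p
    obtain ⟨Q, hQ0, hQ⟩ := V1132.GE.family (G := G) K p
    refine ⟨Q, hQ0, fun z hz m l A hA => ?_⟩
    obtain ⟨T, hT⟩ := exists_T A
    refine limitOf K A T hT fun ε hε => ?_
    refine (hQ z hz).2 m l T _ (fun t => ?_) ε hε
    exact V1132.GE.alg_closure K z _ (hA _ _ _)
  · obtain ⟨σ, hσ, h⟩ := V1132.GE.exists_embedding G K
    refine ⟨σ, fun x hx => hσ ⟨x, hx⟩, fun m l A => ?_⟩
    obtain ⟨T, hT⟩ := exists_T A
    have hT' : ∀ i j, (twist σ A i j).support ⊆ T := by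
      intro i j
      refine (Finsupp.support_mapRange).trans (hT i j)
    refine limitOf K _ T hT' fun ε hε => ?_
    have h1 : W649.ZL.coefT T (twist σ A) = fun t => σ (W649.ZL.coefT T A t) := by
      funext t
      unfold W649.ZL.coefT twist
      rw [Finsupp.mapRange_apply]
    rw [h1]
    obtain ⟨b, hb0, hb1, hb2⟩ := h m l T (W649.ZL.coefT T A) ε hε
    refine ⟨b, fun t ht => hb0 t ?_, hb1, hb2⟩
    exact (map_eq_zero σ).1 ht
  · intro d hK m l A hA
    exact integral_of_limitOf K d A (hK m l) hA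

end Pool.Agent.Results.MP_54e5d7_al.GenericCoefficients
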