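import Pool.Agent.W649.ZL.Supp
import Pool.Agent.W649.ZL.Fam
import Pool.Agent.W649.ZL.Mat
import Pool.Agent.V1132.KD.Main

set_option autoImplicit false
set_option linter.unusedSectionVars false

universe u

namespace Pool.Agent.Results.MP_54e5d7_al.MatrixPolynomials

open Pool.Agent

/-- The kernel of right multiplication by the matrix `A` over the complex group ring on row vectors
of length `m` over `l2(G)`: all square-summable `x` with `x A = 0`. -/
def kernel {G : Type u} [Group G] {m l : ℕ} (A : Matrix (Fin m) (Fin l) (G →₀ ℂ)) :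
    Set (lp (fun _ : Fin m × G => ℂ) 2) :=
  {x | ∀ (j : Fin l) (g : G),
    ∑ k : Fin m, ∑ h ∈ (A k j).support, x (k, g * h⁻¹) * A k j h = 0}

open Classical in
/-- The von Neumann dimension of that kernel: the sum over `i` of one minus the square of the
distance from the basis vector at `(i, 1)` to the kernel, that is, the sum of the squared lengths
of the projections of these vectors to the kernel. -/
noncomputable def kerDim {G : Type u} [Group G] {m l : ℕ}
    (A : Matrix (Fin m) (Fin l) (G →₀ ℂ)) : ℝ :=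
  ∑ i : Fin m, (1 - Metric.infDist
    (lp.single (E := fun _ : Fin m × G => ℂ) 2 (i, (1 : G)) (1 : ℂ)) (kernel A) ^ 2)

/-- The value `A 0 + z A 1 + ... + z ^ D A D` of a matrix polynomial at `z`. -/
noncomputable def value {G : Type u} {D m l : ℕ}
    (A : Fin (D + 1) → Matrix (Fin m) (Fin l) (G →₀ ℂ)) (z : ℂ) :
    Matrix (Fin m) (Fin l) (G →₀ ℂ) :=
  ∑ k : Fin (D + 1), z ^ (k : ℕ) • A k

/-- Linear combinations (used in the proof only). -/
noncomputable def comb {G : Type u} {p m l : ℕ} (M : Fin p → Matrix (Fin m) (Fin l) (G →₀ ℂ))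
    (a : Fin p → ℂ) : Matrix (Fin m) (Fin l) (G →₀ ℂ) :=
  ∑ i, a i • M i

section
variable {G : Type u} [Group G] {m l : ℕ}

/-- The elementary operators. -/
noncomputable def fam0 (T : Finset G) (m l : ℕ) :
    T × Fin m × Fin l → W649.ZL.EE G (Fin m) →L[ℂ] W649.ZL.EE G (Fin l) :=
  W649.ZL.famR (fun i : T × Fin m × Fin l => (i.1 : G)) (fun i => i.2.1) (fun i => i.2.2)

/-- The operator of a matrix with entries supported in `T`. -/
noncomputable def op (T : Finset G) (A : Matrix (Fin m) (Fin l) (G →₀ ℂ)) :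
    W649.ZL.EE G (Fin m) →L[ℂ] W649.ZL.EE G (Fin l) :=
  W649.ZL.lin (fam0 T m l) (W649.ZL.coefT T A)

theorem op_eqv (T : Finset G) (A : Matrix (Fin m) (Fin l) (G →₀ ℂ)) : W649.ZL.Eqv (op T A) :=
  W649.ZL.lin_eqv _ (W649.ZL.famR_eqv _ _ _) _

theorem op_add (T : Finset G) (A B : Matrix (Fin m) (Fin l) (G →₀ ℂ)) :
    op T (A + B) = op T A + op T B := by
  unfold op W649.ZL.lin
  rw [← Finset.sum_add_distrib]
  refine Finset.sum_congr rfl fun i _ => ?_
  rw [← add_smul]
  rfl

theorem op_smul (T : Finset G) (c : ℂ) (A : Matrix (Fin m) (Fin l) (G →₀ ℂ)) :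
    op T (c • A) = c • op T A := by
  unfold op W649.ZL.lin
  rw [Finset.smul_sum]
  refine Finset.sum_congr rfl fun i _ => ?_
  rw [smul_smul]
  rfl

theorem op_comb (T : Finset G) {p : ℕ} (M : Fin p → Matrix (Fin m) (Fin l) (G →₀ ℂ))
    (a : Fin p → ℂ) : op T (comb M a) = ∑ i, a i • op T (M i) := by
  let L : Matrix (Fin m) (Fin l) (G →₀ ℂ) →ₗ[ℂ]
      (W649.ZL.EE G (Fin m) →L[ℂ] W649.ZL.EE G (Fin l)) :=
    { toFun := op T
      map_add' := op_add T
      map_smul' := op_smul T }
  have h := map_sum L (fun i => a i • M i) Finset.univ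
  change op T (∑ i, a i • M i) = _
  refine h.trans ?_
  refine Finset.sum_congr rfl fun i _ => ?_
  exact L.map_smul _ _

theorem kerDim_eq (T : Finset G) (A : Matrix (Fin m) (Fin l) (G →₀ ℂ))
    (hT : ∀ i j, (A i j).support ⊆ T) :
    kerDim A = W649.ZL.vd (LinearMap.ker
      (op T A : W649.ZL.EE G (Fin m) →ₗ[ℂ] W649.ZL.EE G (Fin l))) := by
  change _ = W649.ZL.kd (fam0 T m l) (W649.ZL.coefT T A)
  unfold fam0
  rw [← W649.ZL.kerDimM_eq, W649.ZL.matM_coefT T A hT]
  unfold kerDim W649.ZL.kerDimM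
  congr!

theorem supp_comb (T : Finset G) {p : ℕ} (M : Fin p → Matrix (Fin m) (Fin l) (G →₀ ℂ))
    (hM : ∀ i s t, (M i s t).support ⊆ T) (a : Fin p → ℂ) (s : Fin m) (t : Fin l) :
    ((comb M a) s t).support ⊆ T := by
  classical
  intro x hx
  rw [Finsupp.mem_support_iff] at hx
  by_contra hne
  apply hx
  unfold comb
  rw [Matrix.sum_apply, Finsupp.finsetSum_apply]
  apply Finset.sum_eq_zero
  intro i _
  have : M i s t x = 0 := by
    by_contra h
    exact hne (hM i s t (Finsupp.mem_support_iff.2 h))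
  change a i * M i s t x = 0
  rw [this, mul_zero]


theorem kerDim_value {D : ℕ} (T : Finset G) (A : Fin (D + 1) → Matrix (Fin m) (Fin l) (G →₀ ℂ))
    (hT : ∀ k i j, (A k i j).support ⊆ T) (z : ℂ) :
    kerDim (value A z) = W649.ZL.vd (V1132.KD.kr (V1132.KD.pv D
      (fun k => if h : k < D + 1 then op T (A ⟨k, h⟩) else 0) z)) := by
  have h1 : value A z = comb A (fun k => z ^ (k : ℕ)) := rfl
  have h2 : op T (comb A (fun k => z ^ (k : ℕ))) = V1132.KD.pv D
      (fun k => if h : k < D + 1 then op T (A ⟨k, h⟩) else 0) z := by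
    rw [op_comb]
    unfold V1132.KD.pv
    rw [Finset.sum_range]
    refine Finset.sum_congr rfl fun k _ => ?_
    simp only [k.2, dif_pos, Fin.eta]
  rw [h1, kerDim_eq T _ (supp_comb T A hT _), h2]

theorem bound {D : ℕ} (A : Fin (D + 1) → Matrix (Fin m) (Fin l) (G →₀ ℂ)) (w : ℂ)
    (S : Finset ℂ) :
    ∑ z ∈ S, (kerDim (value A z) - kerDim (value A w)) ≤ D * (m - kerDim (value A w)) := by
  classical
  let T : Finset G := Finset.univ.biUnion fun k : Fin (D + 1) =>
    Finset.univ.biUnion fun i : Fin m => Finset.univ.biUnion fun j : Fin l => (A k i j).support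
  have hT : ∀ k i j, (A k i j).support ⊆ T := by
    intro k i j x hx
    simp only [T, Finset.mem_biUnion, Finset.mem_univ, true_and]
    exact ⟨k, i, j, hx⟩
  simp only [kerDim_value T A hT]
  have h := V1132.KD.bez D (fun k => if h : k < D + 1 then op T (A ⟨k, h⟩) else 0) (by
    intro k
    by_cases hk : k < D + 1
    · rw [dif_pos hk]
      exact op_eqv _ _
    · rw [dif_neg hk]
      intro g f
      change (0 : W649.ZL.EE G (Fin l)) = W649.ZL.tr g 0
      rw [W649.ZL.tr_zero]) w S
  rw [Fintype.card_fin] at h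
  exact h

theorem kerDim_nonneg (A : Matrix (Fin m) (Fin l) (G →₀ ℂ)) : 0 ≤ kerDim A := by
  classical
  let T : Finset G :=
    Finset.univ.biUnion fun i : Fin m => Finset.univ.biUnion fun j : Fin l => (A i j).support
  have hT : ∀ i j, (A i j).support ⊆ T := by
    intro i j x hx
    simp only [T, Finset.mem_biUnion, Finset.mem_univ, true_and]
    exact ⟨i, j, hx⟩
  rw [kerDim_eq T A hT]
  exact W649.ZL.vd_nonneg _

end

/-- **Kernel dimensions along a matrix polynomial.** Let `G` be any group and let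
`P(z) = A₀ + z A₁ + ... + z ^ D A_D` be a polynomial whose coefficients are `m × l` matrices over the
complex group ring; write `dim P(z)` for the von Neumann dimension of the kernel of right
multiplication by `P(z)` on `ℓ²(G)^m`.

1. For every `w` in `ℂ` and every finite set `S` of complex numbers,
   `∑_{z ∈ S} (dim P(z) - dim P(w)) ≤ D (m - dim P(w))`.
2. There is a number `g ≥ 0` with `dim P(z) ≥ g` for all `z`, with equality for all but countably
   many `z`, and `∑_{z ∈ S} (dim P(z) - g) ≤ D (m - g)` for every finite `S`; in particular, for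
   `d > 0`, at most `D (m - g) / d` numbers `z` satisfy `dim P(z) ≥ g + d`. -/
theorem result {G : Type u} [Group G] {D m l : ℕ}
    (A : Fin (D + 1) → Matrix (Fin m) (Fin l) (G →₀ ℂ)) :
    (∀ (w : ℂ) (S : Finset ℂ),
      ∑ z ∈ S, (kerDim (value A z) - kerDim (value A w)) ≤ D * (m - kerDim (value A w))) ∧
    ∃ g : ℝ, 0 ≤ g ∧ (∀ z, g ≤ kerDim (value A z)) ∧
      {z | kerDim (value A z) ≠ g}.Countable ∧
      (∀ S : Finset ℂ, ∑ z ∈ S, (kerDim (value A z) - g) ≤ D * (m - g)) ∧
      ∀ d : ℝ, 0 < d → {z | g + d ≤ kerDim (value A z)}.Finite ∧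
        ({z | g + d ≤ kerDim (value A z)}.ncard : ℝ) ≤ D * (m - g) / d := by
  refine ⟨fun w S => bound A w S, ?_⟩
  set f : ℂ → ℝ := fun z => kerDim (value A z) with hf
  have hf0 : ∀ z, 0 ≤ f z := fun z => kerDim_nonneg _
  have hbdd : BddBelow (Set.range f) := ⟨0, by rintro _ ⟨z, rfl⟩; exact hf0 z⟩
  set g : ℝ := ⨅ z, f z with hg
  have hgf : ∀ z, g ≤ f z := fun z => ciInf_le hbdd z
  have hg0 : 0 ≤ g := le_ciInf hf0
  have hS : ∀ S : Finset ℂ, ∑ z ∈ S, (f z - g) ≤ D * (m - g) := by
    intro S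
    apply le_of_forall_pos_le_add
    intro ε hε
    have hδ : 0 < ε / (S.card + 1) := by positivity
    obtain ⟨w, hw⟩ := exists_lt_of_ciInf_lt (show ⨅ z, f z < g + ε / (S.card + 1) by
      rw [← hg]; linarith)
    have h1 := bound A w S
    have h2 : ∑ z ∈ S, (f z - g) = ∑ z ∈ S, (f z - f w) + S.card * (f w - g) := by
      rw [← nsmul_eq_mul, ← Finset.sum_const, ← Finset.sum_add_distrib]
      refine Finset.sum_congr rfl fun z _ => ?_
      ring
    have h3 : (S.card : ℝ) * (f w - g) ≤ ε := by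
      have h4 : f w - g ≤ ε / (S.card + 1) := by linarith
      calc (S.card : ℝ) * (f w - g) ≤ (S.card + 1) * (f w - g) := by
            have := hgf w
            nlinarith
        _ ≤ (S.card + 1) * (ε / (S.card + 1)) := by
            apply mul_le_mul_of_nonneg_left h4
            positivity
        _ = ε := by
            field_simp
    have h5 : (D : ℝ) * (m - f w) ≤ D * (m - g) := by
      apply mul_le_mul_of_nonneg_left _ (Nat.cast_nonneg _)
      have := hgf w
      linarith
    have h6 : ∑ z ∈ S, (f z - f w) ≤ D * (m - f w) := h1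
    rw [h2]
    linarith
  have hfin : ∀ d : ℝ, 0 < d → {z | g + d ≤ f z}.Finite ∧
      ({z | g + d ≤ f z}.ncard : ℝ) ≤ D * (m - g) / d := by
    intro d hd
    have hcard : ∀ S : Finset ℂ, (S : Set ℂ) ⊆ {z | g + d ≤ f z} →
        (S.card : ℝ) ≤ D * (m - g) / d := by
      intro S hSs
      rw [le_div_iff₀ hd]
      refine le_trans ?_ (hS S)
      rw [← nsmul_eq_mul, ← Finset.sum_const]
      refine Finset.sum_le_sum fun z hz => ?_
      have : g + d ≤ f z := hSs hz
      linarith
    have hfi : {z | g + d ≤ f z}.Finite := by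
      by_contra hinf
      obtain ⟨n, hn⟩ := exists_nat_gt ((D : ℝ) * (m - g) / d)
      obtain ⟨S, hS1, hS2⟩ := Set.Infinite.exists_subset_card_eq hinf n
      have := hcard S hS1
      rw [hS2] at this
      linarith
    refine ⟨hfi, ?_⟩
    rw [Set.ncard_eq_toFinset_card _ hfi]
    exact hcard _ (by simp)
  refine ⟨g, hg0, hgf, ?_, hS, hfin⟩
  have hsub : {z | f z ≠ g} ⊆ ⋃ n : ℕ, {z | g + 1 / ((n : ℝ) + 1) ≤ f z} := by
    intro z hz
    have h1 : g < f z := lt_of_le_of_ne (hgf z) (Ne.symm hz)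
    obtain ⟨n, hn⟩ := exists_nat_one_div_lt (sub_pos.2 h1)
    rw [Set.mem_iUnion]
    exact ⟨n, by change g + 1 / ((n : ℝ) + 1) ≤ f z; linarith⟩
  exact (Set.countable_iUnion fun n => (hfin _ (by positivity)).1.countable).mono hsub

end Pool.Agent.Results.MP_54e5d7_al.MatrixPolynomials
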